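import Mathlib
import Pool.Agent.W184.Sub

/-!
# Lipschitz type characterization of the Fock spaces

If `f ∈ F^p_α`, `0 < p ≤ ∞`, then `|f(z) - f(w)| ≤ d_α(z, w) (g(z) + g(w))` with a non-negative
continuous `g ∈ L^p`.

Proof. Let `m(z) = |f(z)| e^(-α |z|² / 2)`. The function `g` is a constant times
`(∫_{‖v‖ ≤ 3} m(z + v)^p dv)^(1/p)`, which dominates `m` on `z + {‖v‖ ≤ 2}`. With `η = w - z`,
`ζ = α η z̄` the distance is
`d_α(z, w) = (α / 2π)^n e^(α |z|² / 2) ∫ |1 - e^(ζ + α η v̄)| e^(-α |v|² / 2) dv`. If `‖η‖ ≥ 1` and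
`|w| ≤ |z|` this is at least `c e^(α |z|² / 2)`; if `‖η‖ < 1` it is at least
`c e^(α |z|² / 2) (|1 - e^ζ| + |e^ζ| ‖η‖)`.
-/

set_option autoImplicit false

open MeasureTheory Metric Filter Topology Set
open scoped ENNReal

namespace Pool.Agent.Results.MP_09e892_an.LipschitzFock

variable {n : ℕ}

/-- `z ū = z₁ ū₁ + ⋯ + zₙ ūₙ`. -/
noncomputable def dot (z u : Fin n → ℂ) : ℂ := ∑ i, z i * (starRingEnd ℂ) (u i)

/-- `|z|² = |z₁|² + ⋯ + |zₙ|²`. -/
noncomputable def sq (z : Fin n → ℂ) : ℝ := ∑ i, ‖z i‖ ^ 2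

/-- The density of the Gaussian measure `λ_β`. -/
noncomputable def gauss (β : ℝ) (u : Fin n → ℂ) : ℝ := (β / Real.pi) ^ n * Real.exp (-β * sq u)

/-- The induced distance
`d_α(z, w) = ∫ |e^(α z ū) - e^(α w ū)| dλ_{α/2}(u)`. -/
noncomputable def dAlpha (α : ℝ) (z w : Fin n → ℂ) : ℝ :=
  ∫ u : Fin n → ℂ, ‖Complex.exp (α * dot z u) - Complex.exp (α * dot w u)‖ * gauss (α / 2) u

/-- `f` is in the Fock space `F^p_α`: entire and `f(z) e^(-α |z|² / 2)` is in `L^p`. -/
def InFock (p : ℝ≥0∞) (α : ℝ) (f : (Fin n → ℂ) → ℂ) : Prop :=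
  Differentiable ℂ f ∧ MemLp (fun z => f z * Real.exp (-(α / 2) * sq z)) p volume

/-! ## Algebra -/

lemma sq_nonneg' (z : Fin n → ℂ) : 0 ≤ sq z := Finset.sum_nonneg fun _ _ => by positivity

lemma continuous_sq : Continuous (sq : (Fin n → ℂ) → ℝ) := by
  unfold sq; fun_prop

lemma continuous_dot_right (z : Fin n → ℂ) : Continuous (fun u => dot z u) := by
  unfold dot
  exact continuous_finsetSum _ fun i _ =>
    continuous_const.mul (Complex.continuous_conj.comp (continuous_apply i))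

lemma dot_add_right (z u v : Fin n → ℂ) : dot z (u + v) = dot z u + dot z v := by
  simp [dot, mul_add, Finset.sum_add_distrib]

lemma dot_sub_left (z w u : Fin n → ℂ) : dot (z - w) u = dot z u - dot w u := by
  simp [dot, sub_mul, Finset.sum_sub_distrib]

lemma dot_neg_right (z u : Fin n → ℂ) : dot z (-u) = -dot z u := by
  simp [dot]

lemma dot_self_re (z : Fin n → ℂ) : (dot z z).re = sq z := by
  simp only [dot, sq, Complex.re_sum]
  apply Finset.sum_congr rfl
  intro i _
  rw [Complex.mul_conj, Complex.ofReal_re, Complex.normSq_eq_norm_sq]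

lemma dot_comm_re (z w : Fin n → ℂ) : (dot z w).re = (dot w z).re := by
  simp only [dot, Complex.re_sum]
  apply Finset.sum_congr rfl
  intro i _
  simp; ring

lemma dot_add_left (z w u : Fin n → ℂ) : dot (z + w) u = dot z u + dot w u := by
  simp [dot, add_mul, Finset.sum_add_distrib]

lemma sq_add (z v : Fin n → ℂ) : sq (z + v) = sq z + sq v + 2 * (dot z v).re := by
  rw [← dot_self_re, dot_add_left, dot_add_right, dot_add_right]
  simp only [Complex.add_re]
  rw [dot_comm_re v z, dot_self_re, dot_self_re]; ring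

lemma norm_dot_le (z v : Fin n → ℂ) : ‖dot z v‖ ≤ n * ‖z‖ * ‖v‖ := by
  unfold dot
  refine (norm_sum_le _ _).trans ?_
  have : ∀ i ∈ (Finset.univ : Finset (Fin n)), ‖z i * (starRingEnd ℂ) (v i)‖ ≤ ‖z‖ * ‖v‖ := by
    intro i _
    rw [norm_mul, Complex.norm_conj]
    exact mul_le_mul (norm_le_pi_norm z i) (norm_le_pi_norm v i) (norm_nonneg _) (norm_nonneg _)
  refine (Finset.sum_le_sum this).trans ?_
  simp [mul_assoc]

lemma sq_le (v : Fin n → ℂ) : sq v ≤ n * ‖v‖ ^ 2 := by
  unfold sq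
  have : ∀ i ∈ (Finset.univ : Finset (Fin n)), ‖v i‖ ^ 2 ≤ ‖v‖ ^ 2 := by
    intro i _
    exact pow_le_pow_left₀ (norm_nonneg _) (norm_le_pi_norm v i) 2
  refine (Finset.sum_le_sum this).trans ?_
  simp

lemma le_sq (v : Fin n → ℂ) : ‖v‖ ^ 2 ≤ sq v := by
  rcases isEmpty_or_nonempty (Fin n) with h | h
  · have : v = 0 := Subsingleton.elim _ _
    rw [this]; simpa using sq_nonneg' (0 : Fin n → ℂ)
  · obtain ⟨i, hi⟩ := Finite.exists_max (fun i => ‖v i‖)
    have h1 : ‖v‖ ≤ ‖v i‖ := (pi_norm_le_iff_of_nonneg (norm_nonneg _)).2 hi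
    calc ‖v‖ ^ 2 ≤ ‖v i‖ ^ 2 := pow_le_pow_left₀ (norm_nonneg _) h1 2
      _ ≤ sq v := Finset.single_le_sum (f := fun i => ‖v i‖ ^ 2) (fun _ _ => by positivity)
          (Finset.mem_univ i)

/-! ## The kernel -/

/-- The integrand of the distance -/
noncomputable def ker (α : ℝ) (z w u : Fin n → ℂ) : ℝ :=
  ‖Complex.exp (α * dot z u) - Complex.exp (α * dot w u)‖ * gauss (α / 2) u

lemma continuous_ker (α : ℝ) (z w : Fin n → ℂ) : Continuous (ker α z w) := by
  unfold ker gauss
  have h1 := continuous_dot_right z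
  have h2 := continuous_dot_right w
  have h3 := continuous_sq (n := n)
  exact (((Complex.continuous_exp.comp (continuous_const.mul h1)).sub
    (Complex.continuous_exp.comp (continuous_const.mul h2))).norm).mul
    (continuous_const.mul (Real.continuous_exp.comp (continuous_const.mul h3)))

lemma ker_nonneg {α : ℝ} (hα : 0 < α) (z w u : Fin n → ℂ) : 0 ≤ ker α z w u := by
  unfold ker gauss; positivity

lemma ker_symm (α : ℝ) (z w u : Fin n → ℂ) : ker α z w u = ker α w z u := by
  unfold ker; rw [norm_sub_rev]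

/-- the modulus of the exponential -/
lemma norm_exp_gauss (α : ℝ) (z v : Fin n → ℂ) :
    ‖Complex.exp (α * dot z (z + v))‖ * Real.exp (-(α / 2) * sq (z + v)) =
      Real.exp (α / 2 * sq z) * Real.exp (-(α / 2) * sq v) := by
  rw [Complex.norm_exp, ← Real.exp_add, ← Real.exp_add]
  congr 1
  rw [sq_add, dot_add_right, Complex.re_ofReal_mul, Complex.add_re, dot_self_re]
  ring

/-- translation of the integrand -/
lemma ker_add (α : ℝ) (z w v : Fin n → ℂ) : ker α z w (z + v) =
    (α / 2 / Real.pi) ^ n * Real.exp (α / 2 * sq z) *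
      (‖1 - Complex.exp (α * dot (w - z) z + α * dot (w - z) v)‖ *
        Real.exp (-(α / 2) * sq v)) := by
  unfold ker gauss
  have h1 : Complex.exp (α * dot z (z + v)) - Complex.exp (α * dot w (z + v)) =
      Complex.exp (α * dot z (z + v)) *
        (1 - Complex.exp (α * dot (w - z) z + α * dot (w - z) v)) := by
    rw [mul_sub, mul_one, ← Complex.exp_add]
    congr 2
    rw [dot_sub_left, dot_sub_left, dot_add_right, dot_add_right]
    ring
  rw [h1, norm_mul]
  have h2 := norm_exp_gauss α z v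
  calc ‖Complex.exp (α * dot z (z + v))‖ *
        ‖1 - Complex.exp (α * dot (w - z) z + α * dot (w - z) v)‖ *
        ((α / 2 / Real.pi) ^ n * Real.exp (-(α / 2) * sq (z + v)))
      = (α / 2 / Real.pi) ^ n *
        ‖1 - Complex.exp (α * dot (w - z) z + α * dot (w - z) v)‖ *
        (‖Complex.exp (α * dot z (z + v))‖ * Real.exp (-(α / 2) * sq (z + v))) := by ring
    _ = _ := by rw [h2]; ring

/-- integrability of the Gaussians -/
lemma integrable_gauss {α : ℝ} (hα : 0 < α) (z : Fin n → ℂ) :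
    Integrable (fun u : Fin n → ℂ => ‖Complex.exp (α * dot z u)‖ * Real.exp (-(α / 2) * sq u)) := by
  have h1 : (fun u : Fin n → ℂ => ‖Complex.exp (α * dot z u)‖ * Real.exp (-(α / 2) * sq u)) =
      fun u => ∏ i, (‖Complex.exp (α * (z i * (starRingEnd ℂ) (u i)))‖ *
        Real.exp (-(α / 2) * ‖u i‖ ^ 2)) := by
    funext u
    rw [Finset.prod_mul_distrib]
    congr 1
    · simp only [Complex.norm_exp]
      rw [← Real.exp_sum]
      congr 1
      unfold dot
      rw [Finset.mul_sum, Complex.re_sum]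
    · rw [← Real.exp_sum]
      congr 1
      unfold sq
      rw [Finset.mul_sum]
  rw [h1]
  apply Integrable.fintype_prod (f := fun (i : Fin n) (x : ℂ) =>
    ‖Complex.exp (α * (z i * (starRingEnd ℂ) x))‖ * Real.exp (-(α / 2) * ‖x‖ ^ 2))
  intro i
  have h2 := (GaussianFourier.integrable_cexp_neg_mul_sq_norm_add (V := ℂ) (b := (α / 2 : ℝ))
    (by simpa using by linarith) (α : ℂ) (z i)).norm
  refine h2.congr (Eventually.of_forall fun x => ?_)
  simp only [Complex.norm_exp, ← Real.exp_add]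
  congr 1
  have h3 : ((‖x‖ : ℂ) ^ 2).re = ‖x‖ ^ 2 := by rw [← Complex.ofReal_pow, Complex.ofReal_re]
  simp [Complex.inner]
  rw [h3]
  ring

lemma integrable_ker {α : ℝ} (hα : 0 < α) (z w : Fin n → ℂ) : Integrable (ker α z w) := by
  have h1 := (((integrable_gauss hα z).add (integrable_gauss hα w)).const_mul
    ((α / 2 / Real.pi) ^ n))
  refine h1.mono' (continuous_ker α z w).aestronglyMeasurable (Eventually.of_forall fun u => ?_)
  rw [Real.norm_of_nonneg (ker_nonneg hα z w u)]
  unfold ker gauss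
  have h2 := norm_sub_le (Complex.exp (α * dot z u)) (Complex.exp (α * dot w u))
  have h3 : 0 ≤ (α / 2 / Real.pi) ^ n * Real.exp (-(α / 2) * sq u) := by positivity
  calc _ ≤ (‖Complex.exp (α * dot z u)‖ + ‖Complex.exp (α * dot w u)‖) *
        ((α / 2 / Real.pi) ^ n * Real.exp (-(α / 2) * sq u)) := mul_le_mul_of_nonneg_right h2 h3
    _ = _ := by
      simp only [Pi.add_apply]; ring

/-- the translated integrand without the constants -/
noncomputable def FF (α : ℝ) (z w v : Fin n → ℂ) : ℝ :=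
  ‖1 - Complex.exp (α * dot (w - z) z + α * dot (w - z) v)‖ * Real.exp (-(α / 2) * sq v)

lemma FF_nonneg (α : ℝ) (z w v : Fin n → ℂ) : 0 ≤ FF α z w v := by unfold FF; positivity

lemma dAlpha_eq {α : ℝ} (z w : Fin n → ℂ) : dAlpha α z w =
    (α / 2 / Real.pi) ^ n * Real.exp (α / 2 * sq z) * ∫ v, FF α z w v := by
  have h1 : dAlpha α z w = ∫ v, ker α z w (z + v) := by
    rw [integral_add_left_eq_self (ker α z w) z]; rfl
  rw [h1, ← integral_const_mul]
  congr 1
  funext v
  exact ker_add α z w v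

lemma integrable_FF {α : ℝ} (hα : 0 < α) (z w : Fin n → ℂ) : Integrable (FF α z w) := by
  have h1 : Integrable (fun v => ker α z w (z + v)) := (integrable_ker hα z w).comp_add_left z
  have hK : (α / 2 / Real.pi) ^ n * Real.exp (α / 2 * sq z) ≠ 0 := by positivity
  have h2 : (fun v => ker α z w (z + v)) =
      fun v => (α / 2 / Real.pi) ^ n * Real.exp (α / 2 * sq z) * FF α z w v := by
    funext v; exact ker_add α z w v
  rw [h2] at h1
  have h3 := h1.const_mul ((α / 2 / Real.pi) ^ n * Real.exp (α / 2 * sq z))⁻¹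
  refine h3.congr (Eventually.of_forall fun v => ?_)
  show _ * (_ * _) = _
  rw [← mul_assoc, inv_mul_cancel₀ hK, one_mul]

/-- a lower bound on a ball gives a lower bound of the integral -/
lemma lower_ball {F : (Fin n → ℂ) → ℝ} (hF : Integrable F) (h0 : ∀ v, 0 ≤ F v)
    {c : Fin n → ℂ} {r A : ℝ} (hA : ∀ v ∈ closedBall c r, A ≤ F v) :
    A * (volume : Measure (Fin n → ℂ)).real (closedBall 0 r) ≤ ∫ v, F v := by
  have h1 : ∫ v in closedBall c r, F v ≤ ∫ v, F v :=
    setIntegral_le_integral hF (Eventually.of_forall h0)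
  have hfin : volume (closedBall c r) ≠ ⊤ := measure_closedBall_lt_top.ne
  have h2 : ∫ _ in closedBall c r, A ≤ ∫ v in closedBall c r, F v :=
    setIntegral_mono_on (integrableOn_const hfin) hF.integrableOn measurableSet_closedBall hA
  rw [setIntegral_const, smul_eq_mul] at h2
  have h3 : (volume : Measure (Fin n → ℂ)).real (closedBall c r) =
      (volume : Measure (Fin n → ℂ)).real (closedBall 0 r) := by
    rw [Measure.real, Measure.real, Measure.addHaar_closedBall_center]
  rw [h3, mul_comm] at h2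
  linarith

lemma vol_pos {r : ℝ} (hr : 0 < r) : 0 < (volume : Measure (Fin n → ℂ)).real (closedBall 0 r) :=
  ENNReal.toReal_pos (measure_closedBall_pos _ _ hr).ne' measure_closedBall_lt_top.ne

/-- lower bound for points at distance at least one -/
lemma lower_far {α : ℝ} (hα : 0 < α) : ∃ c : ℝ, 0 < c ∧ ∀ z w : Fin n → ℂ, sq w ≤ sq z →
    1 ≤ ‖w - z‖ → c * Real.exp (α / 2 * sq z) ≤ dAlpha α z w := by
  set ρ : ℝ := 1 / (4 * (n + 1)) with hρ
  have hρ0 : 0 < ρ := by positivity
  have hnρ : n * ρ ≤ 1 / 4 := by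
    rw [hρ, mul_one_div, div_le_div_iff₀ (by positivity) (by norm_num)]
    linarith
  set A : ℝ := (1 - Real.exp (-(α / 4))) * Real.exp (-(α / 2) * (n * ρ ^ 2)) with hA
  have hA0 : 0 < A := by
    apply mul_pos _ (Real.exp_pos _)
    have : Real.exp (-(α / 4)) < Real.exp 0 := Real.exp_lt_exp.2 (by linarith)
    rw [Real.exp_zero] at this
    linarith
  have hV := vol_pos (n := n) hρ0
  refine ⟨(α / 2 / Real.pi) ^ n * (A * (volume : Measure (Fin n → ℂ)).real (closedBall 0 ρ)),
    by positivity, fun z w hzw h1 => ?_⟩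
  have h2 := lower_ball (integrable_FF hα z w) (FF_nonneg α z w) (c := 0) (r := ρ) (A := A) ?_
  · rw [dAlpha_eq]
    calc _ = (α / 2 / Real.pi) ^ n * Real.exp (α / 2 * sq z) *
          (A * (volume : Measure (Fin n → ℂ)).real (closedBall 0 ρ)) := by ring
      _ ≤ _ := mul_le_mul_of_nonneg_left h2 (by positivity)
  · intro v hv
    have hv1 : ‖v‖ ≤ ρ := by simpa using hv
    unfold FF
    set η := w - z with hη
    have hw : w = z + η := by rw [hη]; abel
    have h3 : 2 * (dot η z).re ≤ -sq η := by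
      have := sq_add z η
      rw [← hw, dot_comm_re] at this
      linarith
    have h4 : ‖dot η v‖ ≤ ‖η‖ / 4 := by
      refine (norm_dot_le η v).trans ?_
      calc (n : ℝ) * ‖η‖ * ‖v‖ ≤ n * ‖η‖ * ρ := by gcongr
        _ = (n * ρ) * ‖η‖ := by ring
        _ ≤ 1 / 4 * ‖η‖ := mul_le_mul_of_nonneg_right hnρ (norm_nonneg _)
        _ = _ := by ring
    have h5 : (dot η v).re ≤ ‖η‖ / 4 := (Complex.re_le_norm _).trans h4
    have h6 := le_sq η
    have h7 : ‖Complex.exp (α * dot η z + α * dot η v)‖ ≤ Real.exp (-(α / 4)) := by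
      rw [Complex.norm_exp]
      apply Real.exp_le_exp.2
      rw [Complex.add_re, Complex.re_ofReal_mul, Complex.re_ofReal_mul]
      have h8 : (dot η z).re + (dot η v).re ≤ -(1 / 4) := by nlinarith
      nlinarith
    have h9 : 1 - Real.exp (-(α / 4)) ≤ ‖1 - Complex.exp (α * dot η z + α * dot η v)‖ := by
      have := norm_sub_norm_le (1 : ℂ) (Complex.exp (α * dot η z + α * dot η v))
      rw [norm_one] at this
      linarith
    have h10 : Real.exp (-(α / 2) * (n * ρ ^ 2)) ≤ Real.exp (-(α / 2) * sq v) := by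
      apply Real.exp_le_exp.2
      have h11 : sq v ≤ n * ρ ^ 2 := (sq_le v).trans (by gcongr)
      nlinarith
    exact mul_le_mul h9 h10 (Real.exp_pos _).le (norm_nonneg _)

lemma T_lower {ζ s : ℂ} (hs : ‖s‖ ≤ 1 / 2) :
    ‖Complex.exp ζ‖ * ‖s‖ ≤ ‖1 - Complex.exp (ζ + s)‖ + ‖1 - Complex.exp (ζ + -s)‖ ∧
    ‖Complex.exp ζ - 1‖ ≤ 3 * (‖1 - Complex.exp (ζ + s)‖ + ‖1 - Complex.exp (ζ + -s)‖) := by
  have h1 := Complex.norm_exp_sub_one_sub_id_le (x := s) (by linarith)
  have h2 := Complex.norm_exp_sub_one_sub_id_le (x := -s) (by rw [norm_neg]; linarith)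
  rw [norm_neg] at h2
  have h3 : ‖s‖ ≤ ‖Complex.exp s - Complex.exp (-s)‖ := by
    have e : 2 * s = (Complex.exp s - Complex.exp (-s)) -
        (Complex.exp s - 1 - s) + (Complex.exp (-s) - 1 - -s) := by ring
    have h4 : ‖2 * s‖ ≤ ‖Complex.exp s - Complex.exp (-s)‖ + ‖Complex.exp s - 1 - s‖ +
        ‖Complex.exp (-s) - 1 - -s‖ := by
      rw [e]
      exact (norm_add_le _ _).trans (add_le_add (norm_sub_le _ _) le_rfl)
    rw [norm_mul, Complex.norm_ofNat] at h4
    nlinarith [norm_nonneg s]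
  have h5 : ‖Complex.exp ζ‖ * ‖s‖ ≤
      ‖1 - Complex.exp (ζ + s)‖ + ‖1 - Complex.exp (ζ + -s)‖ := by
    calc ‖Complex.exp ζ‖ * ‖s‖ ≤ ‖Complex.exp ζ‖ * ‖Complex.exp s - Complex.exp (-s)‖ :=
          mul_le_mul_of_nonneg_left h3 (norm_nonneg _)
      _ = ‖(1 - Complex.exp (ζ + -s)) - (1 - Complex.exp (ζ + s))‖ := by
          rw [← norm_mul]; congr 1
          rw [Complex.exp_add, Complex.exp_add]; ring
      _ ≤ ‖1 - Complex.exp (ζ + -s)‖ + ‖1 - Complex.exp (ζ + s)‖ := norm_sub_le _ _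
      _ = _ := add_comm _ _
  refine ⟨h5, ?_⟩
  have h6 := Complex.norm_exp_sub_one_le (x := s) (by linarith)
  have h7 : ‖Complex.exp ζ - 1‖ ≤ ‖1 - Complex.exp (ζ + s)‖ +
      ‖Complex.exp ζ‖ * ‖Complex.exp s - 1‖ := by
    rw [← norm_mul]
    have e : Complex.exp ζ - 1 = -(1 - Complex.exp (ζ + s)) -
        Complex.exp ζ * (Complex.exp s - 1) := by
      rw [Complex.exp_add]; ring
    calc _ = ‖-(1 - Complex.exp (ζ + s)) - Complex.exp ζ * (Complex.exp s - 1)‖ := by rw [← e]
      _ ≤ ‖-(1 - Complex.exp (ζ + s))‖ + ‖Complex.exp ζ * (Complex.exp s - 1)‖ := norm_sub_le _ _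
      _ = _ := by rw [norm_neg]
  have h8 : ‖Complex.exp ζ‖ * ‖Complex.exp s - 1‖ ≤ 2 * (‖Complex.exp ζ‖ * ‖s‖) := by
    calc _ ≤ ‖Complex.exp ζ‖ * (2 * ‖s‖) := mul_le_mul_of_nonneg_left h6 (norm_nonneg _)
      _ = _ := by ring
  linarith [norm_nonneg (1 - Complex.exp (ζ + -s))]

lemma exists_center {ρ r : ℝ} (hρ : 0 < ρ) (hr : n * r ≤ ρ / 8) (η : Fin n → ℂ) :
    ∃ c : Fin n → ℂ, ‖c‖ ≤ ρ / 2 ∧ ∀ v ∈ closedBall c r, ρ / 4 * ‖η‖ ≤ ‖dot η v‖ := by
  rcases isEmpty_or_nonempty (Fin n) with h | h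
  · refine ⟨0, by simpa using by positivity, fun v _ => ?_⟩
    have : η = 0 := Subsingleton.elim _ _
    rw [this, norm_zero, mul_zero]
    exact norm_nonneg _
  · obtain ⟨i, hi⟩ := Finite.exists_max (fun i => ‖η i‖)
    have h1 : ‖η‖ ≤ ‖η i‖ := (pi_norm_le_iff_of_nonneg (norm_nonneg _)).2 hi
    refine ⟨Pi.single i ((ρ / 2 : ℝ) : ℂ), ?_, fun v hv => ?_⟩
    · rw [pi_norm_le_iff_of_nonneg (by positivity)]
      intro j
      by_cases hj : j = i
      · subst hj
        rw [Pi.single_eq_same, Complex.norm_real, Real.norm_of_nonneg (by positivity)]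
      · rw [Pi.single_eq_of_ne hj, norm_zero]; positivity
    · set c : Fin n → ℂ := Pi.single i ((ρ / 2 : ℝ) : ℂ) with hc
      have hv1 : ‖v - c‖ ≤ r := by rwa [mem_closedBall, dist_eq_norm] at hv
      have h2 : dot η c = η i * (ρ / 2 : ℝ) := by
        unfold dot
        rw [Finset.sum_eq_single i]
        · rw [hc, Pi.single_eq_same, Complex.conj_ofReal]
        · intro j _ hj
          rw [hc, Pi.single_eq_of_ne hj]; simp
        · intro h; exact absurd (Finset.mem_univ i) h
      have h3 : dot η v = dot η c + dot η (v - c) := by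
        rw [← dot_add_right]; congr 1; abel
      have h4 : ‖dot η c‖ = ‖η i‖ * (ρ / 2) := by
        rw [h2, norm_mul, Complex.norm_real, Real.norm_of_nonneg (by positivity)]
      have h5 : ‖dot η (v - c)‖ ≤ ρ / 8 * ‖η‖ := by
        refine (norm_dot_le _ _).trans ?_
        have : (n : ℝ) * ‖η‖ * ‖v - c‖ ≤ n * ‖η‖ * r :=
          mul_le_mul_of_nonneg_left hv1 (by positivity)
        nlinarith [norm_nonneg η]
      have h6 : ‖dot η c‖ ≤ ‖dot η v‖ + ‖dot η (v - c)‖ := by
        have : dot η c = dot η v - dot η (v - c) := by rw [h3]; ring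
        rw [this]; exact norm_sub_le _ _
      rw [h4] at h6
      nlinarith [norm_nonneg η]

/-- lower bound for points at distance less than one -/
lemma lower_near {α : ℝ} (hα : 0 < α) : ∃ c : ℝ, 0 < c ∧ ∀ z w : Fin n → ℂ, ‖w - z‖ < 1 →
    c * (Real.exp (α / 2 * sq z) * (‖Complex.exp (α * dot (w - z) z) - 1‖ +
      ‖Complex.exp (α * dot (w - z) z)‖ * ‖w - z‖)) ≤ dAlpha α z w := by
  set ρ : ℝ := 1 / (2 * (α + 1) * (n + 1)) with hρ
  have hρ0 : 0 < ρ := by positivity
  have hnρ : α * (n * ρ) ≤ 1 / 2 := by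
    have e : α * (n * ρ) = (α * n) / (2 * (α + 1) * (n + 1)) := by rw [hρ]; ring
    rw [e, div_le_div_iff₀ (by positivity) (by norm_num)]
    nlinarith [(Nat.cast_nonneg n : (0:ℝ) ≤ n)]
  set r : ℝ := ρ / (8 * (n + 1)) with hr
  have hr0 : 0 < r := by positivity
  have hnr : n * r ≤ ρ / 8 := by
    have e : n * r = (n * ρ) / (8 * (n + 1)) := by rw [hr]; ring
    rw [e, div_le_div_iff₀ (by positivity) (by norm_num)]
    nlinarith
  have hrρ : r ≤ ρ / 2 := by
    rw [hr, div_le_div_iff₀ (by positivity) (by norm_num)]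
    nlinarith [(Nat.cast_nonneg n : (0:ℝ) ≤ n)]
  have hV := vol_pos (n := n) hr0
  set E : ℝ := Real.exp (-(α / 2) * (n * ρ ^ 2)) with hE
  have hE0 : 0 < E := Real.exp_pos _
  set κ : ℝ := min (1 / 6) (α * (ρ / 4) / 2) with hκ
  have hκ0 : 0 < κ := by rw [hκ]; exact lt_min (by norm_num) (by positivity)
  refine ⟨(α / 2 / Real.pi) ^ n * (κ * E * (volume : Measure (Fin n → ℂ)).real (closedBall 0 r) / 2),
    by positivity, fun z w hzw => ?_⟩
  set η := w - z with hη
  set ζ : ℂ := α * dot η z with hζ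
  obtain ⟨c, hc1, hc2⟩ := exists_center hρ0 hnr η
  have hsymm : ∫ v, FF α z w v = (∫ v, (FF α z w v + FF α z w (-v))) / 2 := by
    rw [integral_add (integrable_FF hα z w) (integrable_FF hα z w).comp_neg,
      integral_neg_eq_self]
    ring
  have hlow := lower_ball (F := fun v => FF α z w v + FF α z w (-v))
    ((integrable_FF hα z w).add (integrable_FF hα z w).comp_neg)
    (fun v => add_nonneg (FF_nonneg _ _ _ _) (FF_nonneg _ _ _ _)) (c := c) (r := r)
    (A := κ * E * (‖Complex.exp ζ - 1‖ + ‖Complex.exp ζ‖ * ‖η‖)) ?_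
  · rw [dAlpha_eq, hsymm]
    calc _ = (α / 2 / Real.pi) ^ n * Real.exp (α / 2 * sq z) *
          (κ * E * (‖Complex.exp ζ - 1‖ + ‖Complex.exp ζ‖ * ‖η‖) *
            (volume : Measure (Fin n → ℂ)).real (closedBall 0 r) / 2) := by ring
      _ ≤ _ := mul_le_mul_of_nonneg_left (by linarith) (by positivity)
  · intro v hv
    have hvρ : ‖v‖ ≤ ρ := by
      have h1 : ‖v - c‖ ≤ r := by rwa [mem_closedBall, dist_eq_norm] at hv
      have h2 : v = c + (v - c) := by abel
      rw [h2]
      exact (norm_add_le _ _).trans (by linarith)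
    have hs : ‖(α : ℂ) * dot η v‖ ≤ 1 / 2 := by
      rw [norm_mul, Complex.norm_real, Real.norm_of_nonneg hα.le]
      have h1 := norm_dot_le η v
      have h2 : (n : ℝ) * ‖η‖ * ‖v‖ ≤ n * 1 * ρ := by gcongr
      nlinarith
    obtain ⟨h1, h2⟩ := T_lower (ζ := ζ) hs
    have h3 : sq (-v) = sq v := by simp [sq]
    have h4 : FF α z w v + FF α z w (-v) =
        (‖1 - Complex.exp (ζ + α * dot η v)‖ + ‖1 - Complex.exp (ζ + -(α * dot η v))‖) *
          Real.exp (-(α / 2) * sq v) := by
      unfold FF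
      rw [h3, dot_neg_right, mul_neg, add_mul]
    show _ ≤ FF α z w v + FF α z w (-v)
    rw [h4]
    have h5 : E ≤ Real.exp (-(α / 2) * sq v) := by
      apply Real.exp_le_exp.2
      have h11 : sq v ≤ n * ρ ^ 2 := (sq_le v).trans (by gcongr)
      nlinarith
    set T := ‖1 - Complex.exp (ζ + α * dot η v)‖ + ‖1 - Complex.exp (ζ + -(α * dot η v))‖ with hT
    have h6 : ‖Complex.exp ζ‖ * (α * (ρ / 4 * ‖η‖)) ≤ T := by
      refine le_trans ?_ h1
      apply mul_le_mul_of_nonneg_left _ (norm_nonneg _)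
      rw [norm_mul, Complex.norm_real, Real.norm_of_nonneg hα.le]
      exact mul_le_mul_of_nonneg_left (hc2 v hv) hα.le
    have h7 : κ * (‖Complex.exp ζ - 1‖ + ‖Complex.exp ζ‖ * ‖η‖) ≤ T := by
      have k1 : κ ≤ 1 / 6 := min_le_left _ _
      have k2 : κ ≤ α * (ρ / 4) / 2 := min_le_right _ _
      have e1 : κ * ‖Complex.exp ζ - 1‖ ≤ 1 / 6 * ‖Complex.exp ζ - 1‖ :=
        mul_le_mul_of_nonneg_right k1 (norm_nonneg _)
      have e2 : κ * (‖Complex.exp ζ‖ * ‖η‖) ≤ α * (ρ / 4) / 2 * (‖Complex.exp ζ‖ * ‖η‖) :=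
        mul_le_mul_of_nonneg_right k2 (by positivity)
      have e3 : α * (ρ / 4) / 2 * (‖Complex.exp ζ‖ * ‖η‖) =
        (‖Complex.exp ζ‖ * (α * (ρ / 4 * ‖η‖))) / 2 := by ring
      rw [mul_add]
      linarith
    calc κ * E * (‖Complex.exp ζ - 1‖ + ‖Complex.exp ζ‖ * ‖η‖)
        = (κ * (‖Complex.exp ζ - 1‖ + ‖Complex.exp ζ‖ * ‖η‖)) * E := by ring
      _ ≤ T * Real.exp (-(α / 2) * sq v) := mul_le_mul h7 h5 hE0.le (by positivity)

/-! ## The maximal function -/

/-- rotations preserve the measure -/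
lemma measurePreserving_rot {c : ℂ} (hc : ‖c‖ = 1) :
    MeasurePreserving (fun v : Fin n → ℂ => c • v) volume volume := by
  have h1 : ∀ _ : Fin n, MeasurePreserving (fun x : ℂ => c * x) volume volume := by
    intro _
    have h2 := (rotation ⟨c, by simpa [Submonoid.unitSphere] using hc⟩).measurePreserving
    exact h2
  exact volume_preserving_pi h1

lemma continuous_rot_norm {f : (Fin n → ℂ) → ℂ} (hf : Continuous f) (r : ℝ) (hr : 0 < r) :
    Continuous (fun v => ‖f v‖ ^ r) :=
  hf.norm.rpow_const fun _ => Or.inr hr.le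

/-- rotations and integrals over balls -/
lemma integral_rot {c : ℂ} (hc : ‖c‖ = 1) (F : (Fin n → ℂ) → ℝ) (R : ℝ) :
    ∫ v in closedBall (0 : Fin n → ℂ) R, F (c • v) = ∫ v in closedBall (0 : Fin n → ℂ) R, F v := by
  have hc0 : c ≠ 0 := by intro h; rw [h, norm_zero] at hc; exact zero_ne_one hc
  have h1 : MeasurableEmbedding (fun v : Fin n → ℂ => c • v) :=
    (Homeomorph.smulOfNeZero c hc0).measurableEmbedding
  have h2 := (measurePreserving_rot (n := n) hc).setIntegral_preimage_emb h1 F (closedBall 0 R)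
  have h3 : (fun v : Fin n → ℂ => c • v) ⁻¹' closedBall 0 R = closedBall 0 R := by
    ext v
    simp [norm_smul, hc]
  rw [h3] at h2
  exact h2

/-- sub-mean value property over balls -/
lemma submean {Φ : (Fin n → ℂ) → ℂ} (hΦ : Differentiable ℂ Φ) {r : ℝ} (hr : 0 < r) :
    ‖Φ 0‖ ^ r * (volume : Measure (Fin n → ℂ)).real (closedBall 0 1) ≤
      ∫ v in closedBall (0 : Fin n → ℂ) 1, ‖Φ v‖ ^ r := by
  have hcΦ : Continuous Φ := hΦ.continuous
  have h1 : ∀ v : Fin n → ℂ, ‖Φ 0‖ ^ r ≤
      (2 * Real.pi)⁻¹ * ∫ θ in Ioc (0 : ℝ) (2 * Real.pi),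
        ‖Φ (Complex.exp (θ * Complex.I) • v)‖ ^ r := by
    intro v
    have hd : Differentiable ℂ (fun t : ℂ => Φ (t • v)) :=
      hΦ.comp (differentiable_id.smul_const v)
    have h2 := W184.rpow_le_circleAverage (f := fun t : ℂ => Φ (t • v)) (c := 0) (R := 1) one_pos hr
      (fun t _ => hd.analyticAt t)
    rw [zero_smul, Real.circleAverage_def,
      intervalIntegral.integral_of_le (by positivity), smul_eq_mul] at h2
    simpa [circleMap] using h2
  have hfin : volume (closedBall (0 : Fin n → ℂ) 1) ≠ ⊤ := measure_closedBall_lt_top.ne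
  have hcont : Continuous (fun p : (Fin n → ℂ) × ℝ =>
      ‖Φ (Complex.exp (p.2 * Complex.I) • p.1)‖ ^ r) := by
    apply Continuous.rpow_const _ fun _ => Or.inr hr.le
    apply Continuous.norm
    apply hcΦ.comp
    exact (Complex.continuous_exp.comp ((Complex.continuous_ofReal.comp continuous_snd).mul
      continuous_const)).smul continuous_fst
  have hint : Integrable (fun p : (Fin n → ℂ) × ℝ => ‖Φ (Complex.exp (p.2 * Complex.I) • p.1)‖ ^ r)
      ((volume.restrict (closedBall (0 : Fin n → ℂ) 1)).prod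
        (volume.restrict (Ioc (0 : ℝ) (2 * Real.pi)))) := by
    rw [Measure.prod_restrict]
    have h3 : IntegrableOn (fun p : (Fin n → ℂ) × ℝ =>
        ‖Φ (Complex.exp (p.2 * Complex.I) • p.1)‖ ^ r)
        (closedBall (0 : Fin n → ℂ) 1 ×ˢ Icc (0 : ℝ) (2 * Real.pi))
        ((volume : Measure (Fin n → ℂ)).prod volume) :=
      hcont.continuousOn.integrableOn_compact ((isCompact_closedBall _ _).prod isCompact_Icc)
    exact h3.mono_set (prod_mono le_rfl Ioc_subset_Icc_self)
  have hint2 : IntegrableOn (fun v : Fin n → ℂ => ∫ θ in Ioc (0 : ℝ) (2 * Real.pi),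
      ‖Φ (Complex.exp (θ * Complex.I) • v)‖ ^ r) (closedBall (0 : Fin n → ℂ) 1) :=
    hint.integral_prod_left
  have h4 : ∫ _ in closedBall (0 : Fin n → ℂ) 1, ‖Φ 0‖ ^ r ≤
      ∫ v in closedBall (0 : Fin n → ℂ) 1, (2 * Real.pi)⁻¹ *
        ∫ θ in Ioc (0 : ℝ) (2 * Real.pi), ‖Φ (Complex.exp (θ * Complex.I) • v)‖ ^ r :=
    setIntegral_mono_on (integrableOn_const hfin) (hint2.const_mul _) measurableSet_closedBall
      fun v _ => h1 v
  rw [setIntegral_const, smul_eq_mul, integral_const_mul, integral_integral_swap hint] at h4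
  have h5 : ∀ θ : ℝ, ∫ v in closedBall (0 : Fin n → ℂ) 1,
      ‖Φ (Complex.exp (θ * Complex.I) • v)‖ ^ r =
      ∫ v in closedBall (0 : Fin n → ℂ) 1, ‖Φ v‖ ^ r := fun θ =>
    integral_rot (Complex.norm_exp_ofReal_mul_I θ) (fun v => ‖Φ v‖ ^ r) 1
  simp only [h5] at h4
  rw [setIntegral_const, smul_eq_mul, Real.volume_real_Ioc_of_le (by positivity)] at h4
  have h6 : (2 * Real.pi)⁻¹ * ((2 * Real.pi - 0) *
      ∫ v in closedBall (0 : Fin n → ℂ) 1, ‖Φ v‖ ^ r) =
      ∫ v in closedBall (0 : Fin n → ℂ) 1, ‖Φ v‖ ^ r := by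
    rw [sub_zero, ← mul_assoc, inv_mul_cancel₀ (by positivity), one_mul]
  rw [h6] at h4
  linarith

/-- the weighted modulus -/
noncomputable def mm (α : ℝ) (f : (Fin n → ℂ) → ℂ) (z : Fin n → ℂ) : ℝ :=
  ‖f z‖ * Real.exp (-(α / 2) * sq z)

lemma mm_nonneg (α : ℝ) (f : (Fin n → ℂ) → ℂ) (z : Fin n → ℂ) : 0 ≤ mm α f z := by
  unfold mm; positivity

lemma continuous_mm {α : ℝ} {f : (Fin n → ℂ) → ℂ} (hf : Continuous f) : Continuous (mm α f) := by
  unfold mm
  have h3 := continuous_sq (n := n)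
  exact hf.norm.mul (Real.continuous_exp.comp (continuous_const.mul h3))

/-- the auxiliary entire function -/
noncomputable def Phi (α : ℝ) (f : (Fin n → ℂ) → ℂ) (z v : Fin n → ℂ) : ℂ :=
  f (z + v) * Complex.exp (-(α * dot v z) - (α / 2 * sq z : ℝ))

lemma differentiable_Phi {α : ℝ} {f : (Fin n → ℂ) → ℂ} (hf : Differentiable ℂ f) (z : Fin n → ℂ) :
    Differentiable ℂ (Phi α f z) := by
  have h1 : Differentiable ℂ (fun v : Fin n → ℂ => dot v z) := by
    unfold dot
    fun_prop
  unfold Phi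
  exact (hf.comp (differentiable_id.const_add z)).mul
    (((h1.const_mul _).neg.sub_const _).cexp)

lemma norm_Phi {α : ℝ} {f : (Fin n → ℂ) → ℂ} (z v : Fin n → ℂ) :
    ‖Phi α f z v‖ = mm α f (z + v) * Real.exp (α / 2 * sq v) := by
  unfold Phi mm
  rw [norm_mul, Complex.norm_exp, mul_assoc, ← Real.exp_add]
  congr 2
  rw [sq_add, Complex.sub_re, Complex.neg_re, Complex.re_ofReal_mul, Complex.ofReal_re,
    dot_comm_re v z]
  ring

/-- `f` in terms of the auxiliary function -/
lemma f_eq {α : ℝ} {f : (Fin n → ℂ) → ℂ} (z v : Fin n → ℂ) :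
    f (z + v) = Phi α f z v * Complex.exp (α * dot v z) * Real.exp (α / 2 * sq z) := by
  unfold Phi
  rw [mul_assoc, mul_assoc, Complex.ofReal_exp, ← Complex.exp_add, ← Complex.exp_add]
  have : -(α * dot v z) - ((α / 2 * sq z : ℝ) : ℂ) + (α * dot v z + ((α / 2 * sq z : ℝ) : ℂ)) = 0 := by
    ring
  rw [this, Complex.exp_zero, mul_one]

/-- the sub-mean value property of the weighted modulus -/
lemma mm_submean {α : ℝ} (hα : 0 < α) {f : (Fin n → ℂ) → ℂ} (hf : Differentiable ℂ f) {r : ℝ}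
    (hr : 0 < r) (z : Fin n → ℂ) : mm α f z ^ r ≤
    Real.exp (α / 2 * n * r) / (volume : Measure (Fin n → ℂ)).real (closedBall 0 1) *
      ∫ u in closedBall z 1, mm α f u ^ r := by
  have hV := vol_pos (n := n) one_pos
  have h1 := submean (differentiable_Phi (α := α) hf z) hr
  have h0 : ‖Phi α f z 0‖ = mm α f z := by
    rw [norm_Phi]; simp [sq]
  rw [h0] at h1
  have hcm : Continuous (fun u => mm α f u ^ r) :=
    (continuous_mm hf.continuous).rpow_const fun _ => Or.inr hr.le
  have h2 : ∫ v in closedBall (0 : Fin n → ℂ) 1, ‖Phi α f z v‖ ^ r ≤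
      ∫ v in closedBall (0 : Fin n → ℂ) 1, Real.exp (α / 2 * n * r) * mm α f (z + v) ^ r := by
    apply setIntegral_mono_on
    · exact (continuous_rot_norm (differentiable_Phi hf z).continuous r hr).continuousOn.integrableOn_compact
        (isCompact_closedBall _ _)
    · exact ((continuous_const.mul (hcm.comp (continuous_const.add continuous_id))).continuousOn).integrableOn_compact
        (isCompact_closedBall _ _)
    · exact measurableSet_closedBall
    · intro v hv
      have hv1 : ‖v‖ ≤ 1 := by simpa using hv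
      rw [norm_Phi, Real.mul_rpow (mm_nonneg _ _ _) (Real.exp_pos _).le, mul_comm]
      apply mul_le_mul_of_nonneg_right _ (Real.rpow_nonneg (mm_nonneg _ _ _) _)
      rw [← Real.exp_mul]
      apply Real.exp_le_exp.2
      have h3 : sq v ≤ n := by
        have := sq_le v
        have h4 : ‖v‖ ^ 2 ≤ 1 := pow_le_one₀ (norm_nonneg _) hv1
        nlinarith [(Nat.cast_nonneg n : (0:ℝ) ≤ n)]
      have h4 : α / 2 * sq v ≤ α / 2 * n := mul_le_mul_of_nonneg_left h3 (by positivity)
      exact mul_le_mul_of_nonneg_right h4 hr.le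
  have h3 : ∫ v in closedBall (0 : Fin n → ℂ) 1, Real.exp (α / 2 * n * r) * mm α f (z + v) ^ r =
      Real.exp (α / 2 * n * r) * ∫ u in closedBall z 1, mm α f u ^ r := by
    rw [integral_const_mul]
    congr 1
    have h4 := (measurePreserving_add_left (volume : Measure (Fin n → ℂ)) z).setIntegral_preimage_emb
      (measurableEmbedding_addLeft z) (fun u => mm α f u ^ r) (closedBall z 1)
    have h5 : (fun x => z + x) ⁻¹' closedBall z 1 = closedBall (0 : Fin n → ℂ) 1 := by
      ext v; simp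
    rw [h5] at h4
    exact h4
  rw [h3] at h2
  rw [div_mul_eq_mul_div, le_div_iff₀ hV]
  linarith

/-- a continuous majorant in `L^p` -/
lemma exists_G {α : ℝ} (hα : 0 < α) {p : ℝ≥0∞} (hp : p ≠ 0) {f : (Fin n → ℂ) → ℂ}
    (hf : InFock p α f) : ∃ G : (Fin n → ℂ) → ℝ, Continuous G ∧ (∀ z, 0 ≤ G z) ∧
      MemLp G p volume ∧ ∀ z v : Fin n → ℂ, ‖v‖ ≤ 2 → mm α f (z + v) ≤ G z := by
  obtain ⟨hd, hm⟩ := hf
  have hcm := continuous_mm (α := α) hd.continuous
  have hnorm : ∀ z, ‖f z * Real.exp (-(α / 2) * sq z)‖ = mm α f z := by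
    intro z
    unfold mm
    rw [norm_mul, Complex.norm_real, Real.norm_of_nonneg (Real.exp_pos _).le]
  by_cases htop : p = ⊤
  · subst htop
    set F : (Fin n → ℂ) → ℂ := fun z => f z * Real.exp (-(α / 2) * sq z) with hF
    have h1 : eLpNormEssSup F volume < ⊤ := by
      have := hm.2
      rwa [eLpNorm_exponent_top] at this
    set C : ℝ := (eLpNormEssSup F volume).toReal with hC
    have h2 : ∀ᵐ z ∂(volume : Measure (Fin n → ℂ)), mm α f z ≤ C := by
      filter_upwards [ae_le_eLpNormEssSup (f := F) (μ := volume)] with z hz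
      have h3 := ENNReal.toReal_mono h1.ne hz
      rw [toReal_enorm, hnorm] at h3
      exact h3
    have h3 : ∀ z, mm α f z ≤ C := by
      have h4 := Measure.dense_of_ae h2
      have h5 : IsClosed {z | mm α f z ≤ C} := isClosed_le hcm continuous_const
      have h6 : {z | mm α f z ≤ C} = univ := by
        rw [← h5.closure_eq]; exact h4.closure_eq
      intro z
      have : z ∈ {z | mm α f z ≤ C} := by rw [h6]; trivial
      exact this
    exact ⟨fun _ => C, continuous_const, fun _ => ENNReal.toReal_nonneg, memLp_top_const _,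
      fun z v _ => h3 _⟩
  · set r : ℝ := p.toReal with hr
    have hr0 : 0 < r := ENNReal.toReal_pos hp htop
    have hV := vol_pos (n := n) one_pos
    set C : ℝ := Real.exp (α / 2 * n * r) / (volume : Measure (Fin n → ℂ)).real (closedBall 0 1)
      with hC
    have hC0 : 0 < C := by positivity
    have hcr : Continuous (fun u => mm α f u ^ r) := hcm.rpow_const fun _ => Or.inr hr0.le
    have hint : Integrable (fun u => mm α f u ^ r) := by
      have h1 := hm.integrable_norm_rpow hp htop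
      simp only [hnorm] at h1
      exact h1
    set I : (Fin n → ℂ) → ℝ := fun z => ∫ u in closedBall z 3, mm α f u ^ r with hI
    have hI0 : ∀ z, 0 ≤ I z := fun z =>
      setIntegral_nonneg measurableSet_closedBall fun u _ => Real.rpow_nonneg (mm_nonneg _ _ _) _
    have hIeq : ∀ z, I z = ∫ v in closedBall (0 : Fin n → ℂ) 3, mm α f (z + v) ^ r := by
      intro z
      have h4 := (measurePreserving_add_left (volume : Measure (Fin n → ℂ)) z).setIntegral_preimage_emb
        (measurableEmbedding_addLeft z) (fun u => mm α f u ^ r) (closedBall z 3)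
      have h5 : (fun x => z + x) ⁻¹' closedBall z 3 = closedBall (0 : Fin n → ℂ) 3 := by
        ext v; simp
      rw [h5] at h4
      exact h4.symm
    have hIc : Continuous I := by
      have h1 : I = fun z => ∫ v in closedBall (0 : Fin n → ℂ) 3, mm α f (z + v) ^ r := by
        funext z; exact hIeq z
      rw [h1]
      apply continuous_parametric_integral_of_continuous (f := fun z v => mm α f (z + v) ^ r)
      · exact hcr.comp (continuous_fst.add continuous_snd)
      · exact isCompact_closedBall _ _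
    have hIint : Integrable I := by
      set k : (Fin n → ℂ) → ℝ := (closedBall (0 : Fin n → ℂ) 3).indicator fun _ => 1 with hk
      have hk1 : Integrable k := by
        have h0 : IntegrableOn (fun _ : Fin n → ℂ => (1 : ℝ)) (closedBall (0 : Fin n → ℂ) 3) :=
          integrableOn_const measure_closedBall_lt_top.ne
        exact h0.integrable_indicator measurableSet_closedBall
      have h1 := hint.integrable_convolution (ContinuousLinearMap.mul ℝ ℝ) hk1
      refine h1.congr (Eventually.of_forall fun z => ?_)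
      show ∫ t, mm α f t ^ r * k (z - t) = I z
      rw [hI]
      simp only
      rw [← integral_indicator measurableSet_closedBall]
      congr 1
      funext t
      rw [hk]
      by_cases ht : t ∈ closedBall z 3
      · have ht' : z - t ∈ closedBall (0 : Fin n → ℂ) 3 := by
          rw [mem_closedBall, dist_eq_norm] at ht
          rw [mem_closedBall, dist_eq_norm, sub_zero, norm_sub_rev]; exact ht
        rw [indicator_of_mem ht', indicator_of_mem ht, mul_one]
      · have ht' : z - t ∉ closedBall (0 : Fin n → ℂ) 3 := by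
          intro h; apply ht
          rw [mem_closedBall, dist_eq_norm, sub_zero, norm_sub_rev] at h
          rw [mem_closedBall, dist_eq_norm]; exact h
        rw [indicator_of_notMem ht', indicator_of_notMem ht, mul_zero]
    set G : (Fin n → ℂ) → ℝ := fun z => (C * I z) ^ (1 / r) with hG
    have hG0 : ∀ z, 0 ≤ G z := fun z => Real.rpow_nonneg (mul_nonneg hC0.le (hI0 z)) _
    have hGc : Continuous G :=
      (continuous_const.mul hIc).rpow_const fun _ => Or.inr (by positivity)
    have hGr : ∀ z, ‖G z‖ ^ r = C * I z := by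
      intro z
      rw [Real.norm_of_nonneg (hG0 z), hG]
      simp only
      rw [← Real.rpow_mul (mul_nonneg hC0.le (hI0 z)), one_div, inv_mul_cancel₀ hr0.ne',
        Real.rpow_one]
    refine ⟨G, hGc, hG0, ?_, ?_⟩
    · rw [← integrable_norm_rpow_iff hGc.aestronglyMeasurable hp htop, ← hr]
      simp only [hGr]
      exact hIint.const_mul C
    · intro z v hv
      have h1 := mm_submean hα hd hr0 (z + v)
      rw [← hC] at h1
      have h2 : ∫ u in closedBall (z + v) 1, mm α f u ^ r ≤ I z := by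
        apply setIntegral_mono_set hint.integrableOn
        · exact Eventually.of_forall fun u => Real.rpow_nonneg (mm_nonneg _ _ _) _
        · apply Eventually.of_forall
          intro u hu
          have hu' : dist u (z + v) ≤ 1 := hu
          have hz' : dist (z + v) z ≤ 2 := by
            rw [dist_eq_norm]; simpa using hv
          show dist u z ≤ 3
          linarith [dist_triangle u (z + v) z]
      have h3 : mm α f (z + v) ^ r ≤ C * I z :=
        h1.trans (mul_le_mul_of_nonneg_left h2 hC0.le)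
      have h4 : mm α f (z + v) = (mm α f (z + v) ^ r) ^ (1 / r) := by
        rw [← Real.rpow_mul (mm_nonneg _ _ _), one_div, mul_inv_cancel₀ hr0.ne', Real.rpow_one]
      rw [h4]
      exact Real.rpow_le_rpow (Real.rpow_nonneg (mm_nonneg _ _ _) _) h3 (by positivity)

lemma norm_f_eq {α : ℝ} (f : (Fin n → ℂ) → ℂ) (z : Fin n → ℂ) :
    ‖f z‖ = mm α f z * Real.exp (α / 2 * sq z) := by
  unfold mm
  rw [mul_assoc, ← Real.exp_add]
  have : -(α / 2) * sq z + α / 2 * sq z = 0 := by ring
  rw [this, Real.exp_zero, mul_one]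

lemma dAlpha_symm (α : ℝ) (z w : Fin n → ℂ) : dAlpha α z w = dAlpha α w z := by
  unfold dAlpha
  congr 1
  funext u
  rw [norm_sub_rev]

lemma dAlpha_nonneg {α : ℝ} (hα : 0 < α) (z w : Fin n → ℂ) : 0 ≤ dAlpha α z w :=
  integral_nonneg fun u => ker_nonneg hα z w u

/-- **Main result.** Let `f ∈ F^p_α`, `0 < p ≤ ∞`. Then there is a non-negative continuous `g ∈ L^p`
with `|f(z) - f(w)| ≤ d_α(z, w) (g(z) + g(w))` for all `z, w`. (The integral defining `d_α(z, w)`
converges.) -/
theorem result (n : ℕ) (α : ℝ) (hα : 0 < α) :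
    (∀ z w : Fin n → ℂ, Integrable fun u : Fin n → ℂ =>
      ‖Complex.exp (α * dot z u) - Complex.exp (α * dot w u)‖ * gauss (α / 2) u) ∧
    ∀ (p : ℝ≥0∞), p ≠ 0 → ∀ f : (Fin n → ℂ) → ℂ, InFock p α f →
      ∃ g : (Fin n → ℂ) → ℝ, Continuous g ∧ (∀ z, 0 ≤ g z) ∧ MemLp g p volume ∧
        ∀ z w : Fin n → ℂ, ‖f z - f w‖ ≤ dAlpha α z w * (g z + g w) := by
  refine ⟨fun z w => integrable_ker hα z w, fun p hp f hf => ?_⟩
  obtain ⟨G, hGc, hG0, hGm, hG⟩ := exists_G hα hp hf
  obtain ⟨c₁, hc₁, hfar⟩ := lower_far (n := n) hα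
  obtain ⟨c₂, hc₂, hnear⟩ := lower_near (n := n) hα
  set A : ℝ := Real.exp (α / 2 * (n * 2 ^ 2)) with hA
  have hA0 : 0 < A := Real.exp_pos _
  set K : ℝ := max (1 / c₁) (A / c₂) with hK
  have hK0 : 0 < K := lt_max_of_lt_left (by positivity)
  have hGself : ∀ z, mm α f z ≤ G z := by
    intro z
    have := hG z 0 (by simp)
    rwa [add_zero] at this
  -- far points
  have far : ∀ z w : Fin n → ℂ, sq w ≤ sq z → 1 ≤ ‖w - z‖ →
      ‖f z - f w‖ ≤ dAlpha α z w * (K * (G z + G w)) := by
    intro z w hzw h1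
    have h2 := hfar z w hzw h1
    have h3 : ‖f z - f w‖ ≤ Real.exp (α / 2 * sq z) * (G z + G w) := by
      refine (norm_sub_le _ _).trans ?_
      rw [norm_f_eq (α := α) f z, norm_f_eq (α := α) f w]
      have h4 : Real.exp (α / 2 * sq w) ≤ Real.exp (α / 2 * sq z) :=
        Real.exp_le_exp.2 (mul_le_mul_of_nonneg_left hzw (by positivity))
      have h5 : mm α f z * Real.exp (α / 2 * sq z) ≤ G z * Real.exp (α / 2 * sq z) :=
        mul_le_mul_of_nonneg_right (hGself z) (Real.exp_pos _).le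
      have h6 : mm α f w * Real.exp (α / 2 * sq w) ≤ G w * Real.exp (α / 2 * sq z) :=
        mul_le_mul (hGself w) h4 (Real.exp_pos _).le (hG0 w)
      calc _ ≤ G z * Real.exp (α / 2 * sq z) + G w * Real.exp (α / 2 * sq z) := add_le_add h5 h6
        _ = _ := by ring
    have h7 : Real.exp (α / 2 * sq z) ≤ dAlpha α z w * (1 / c₁) := by
      rw [mul_one_div, le_div_iff₀ hc₁]; linarith
    have h8 : 0 ≤ G z + G w := add_nonneg (hG0 z) (hG0 w)
    calc ‖f z - f w‖ ≤ Real.exp (α / 2 * sq z) * (G z + G w) := h3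
      _ ≤ (dAlpha α z w * (1 / c₁)) * (G z + G w) := mul_le_mul_of_nonneg_right h7 h8
      _ ≤ (dAlpha α z w * K) * (G z + G w) :=
          mul_le_mul_of_nonneg_right (mul_le_mul_of_nonneg_left (le_max_left _ _)
            (dAlpha_nonneg hα z w)) h8
      _ = _ := by ring
  -- near points
  have near : ∀ z w : Fin n → ℂ, ‖w - z‖ < 1 →
      ‖f z - f w‖ ≤ dAlpha α z w * (K * (G z + G w)) := by
    intro z w h1
    have h2 := hnear z w h1
    set η := w - z with hη
    have hw : w = z + η := by rw [hη]; abel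
    set ζ : ℂ := α * dot η z with hζ
    have hbd : ∀ v : Fin n → ℂ, ‖v‖ ≤ 2 → ‖Phi α f z v‖ ≤ A * G z := by
      intro v hv
      rw [norm_Phi, mul_comm]
      apply mul_le_mul _ (hG z v hv) (mm_nonneg _ _ _) hA0.le
      apply Real.exp_le_exp.2
      apply mul_le_mul_of_nonneg_left _ (by positivity)
      exact (sq_le v).trans (by gcongr)
    have hΦ0 : ‖Phi α f z 0‖ ≤ A * G z := hbd 0 (by simp)
    have hS : ‖Phi α f z η - Phi α f z 0‖ ≤ (A * G z) * ‖η‖ := by
      have h3 := Complex.dist_le_div_mul_dist_of_mapsTo_ball (f := Phi α f z) (c := 0) (z := η)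
        (R₁ := 2) (R₂ := 2 * (A * G z)) (differentiable_Phi hf.1 z).differentiableOn ?_ ?_
      · rw [dist_eq_norm, dist_eq_norm, sub_zero] at h3
        calc _ ≤ 2 * (A * G z) / 2 * ‖η‖ := h3
          _ = _ := by ring
      · intro v hv
        rw [mem_closedBall, dist_eq_norm]
        have hv2 : ‖v‖ ≤ 2 := by
          rw [mem_ball, dist_eq_norm, sub_zero] at hv; exact hv.le
        have := norm_sub_le (Phi α f z v) (Phi α f z 0)
        have := hbd v hv2
        linarith
      · rw [mem_ball, dist_eq_norm, sub_zero]; linarith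
    have h4 : f z - f w = -((Phi α f z η - Phi α f z 0) * Complex.exp ζ +
        Phi α f z 0 * (Complex.exp ζ - 1)) * Real.exp (α / 2 * sq z) := by
      have e1 := f_eq (α := α) (f := f) z η
      have e2 := f_eq (α := α) (f := f) z 0
      rw [add_zero] at e2
      have e3 : dot (0 : Fin n → ℂ) z = 0 := by simp [dot]
      rw [e3, mul_zero, Complex.exp_zero, mul_one] at e2
      rw [hw, e1, e2]
      ring
    have h5 : ‖f z - f w‖ ≤ (A * G z) * (Real.exp (α / 2 * sq z) *
        (‖Complex.exp ζ - 1‖ + ‖Complex.exp ζ‖ * ‖η‖)) := by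
      rw [h4, norm_mul, norm_neg, Complex.norm_real, Real.norm_of_nonneg (Real.exp_pos _).le]
      have h6 : ‖(Phi α f z η - Phi α f z 0) * Complex.exp ζ + Phi α f z 0 * (Complex.exp ζ - 1)‖ ≤
          (A * G z) * (‖Complex.exp ζ - 1‖ + ‖Complex.exp ζ‖ * ‖η‖) := by
        refine (norm_add_le _ _).trans ?_
        rw [norm_mul, norm_mul]
        have h7 : ‖Phi α f z η - Phi α f z 0‖ * ‖Complex.exp ζ‖ ≤
            (A * G z) * ‖η‖ * ‖Complex.exp ζ‖ := mul_le_mul_of_nonneg_right hS (norm_nonneg _)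
        have h8 : ‖Phi α f z 0‖ * ‖Complex.exp ζ - 1‖ ≤ (A * G z) * ‖Complex.exp ζ - 1‖ :=
          mul_le_mul_of_nonneg_right hΦ0 (norm_nonneg _)
        calc _ ≤ (A * G z) * ‖η‖ * ‖Complex.exp ζ‖ + (A * G z) * ‖Complex.exp ζ - 1‖ :=
              add_le_add h7 h8
          _ = _ := by ring
      calc _ ≤ ((A * G z) * (‖Complex.exp ζ - 1‖ + ‖Complex.exp ζ‖ * ‖η‖)) *
            Real.exp (α / 2 * sq z) := mul_le_mul_of_nonneg_right h6 (Real.exp_pos _).le
        _ = _ := by ring
    have h9 : Real.exp (α / 2 * sq z) * (‖Complex.exp ζ - 1‖ + ‖Complex.exp ζ‖ * ‖η‖) ≤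
        dAlpha α z w / c₂ := by
      rw [le_div_iff₀ hc₂]; linarith
    have h10 : 0 ≤ A * G z := mul_nonneg hA0.le (hG0 z)
    calc ‖f z - f w‖ ≤ (A * G z) * (dAlpha α z w / c₂) :=
          h5.trans (mul_le_mul_of_nonneg_left h9 h10)
      _ = dAlpha α z w * ((A / c₂) * G z) := by ring
      _ ≤ dAlpha α z w * (K * (G z + G w)) := by
          apply mul_le_mul_of_nonneg_left _ (dAlpha_nonneg hα z w)
          exact mul_le_mul (le_max_right _ _) (by linarith [hG0 w]) (hG0 z) hK0.le
  refine ⟨fun z => K * G z, continuous_const.mul hGc, fun z => mul_nonneg hK0.le (hG0 z),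
    hGm.const_mul K, fun z w => ?_⟩
  rw [← mul_add]
  rcases lt_or_ge ‖w - z‖ 1 with h | h
  · exact near z w h
  · rcases le_total (sq w) (sq z) with h' | h'
    · exact far z w h' h
    · rw [norm_sub_rev, dAlpha_symm, add_comm]
      exact far w z h' (by rwa [norm_sub_rev])

end Pool.Agent.Results.MP_09e892_an.LipschitzFock
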